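import Mathlib

/-!
# A finite-difference formula for the determinant

For a square matrix (or an endomorphism of a finite-dimensional space) `M`, the function
`t ↦ det (1 + t M)` is a polynomial of degree at most `n` with top coefficient `det M`; hence its
`n`-th finite difference with step one is `n! * det M`.
-/

set_option autoImplicit false

namespace Pool.Agent.SmoothDegree

open Finset Polynomial

theorem matrix_det_fd {ι : Type*} [Fintype ι] [DecidableEq ι] (M : Matrix ι ι ℝ) :
    ∑ k ∈ range (Fintype.card ι + 1),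
      ((-1 : ℝ) ^ (Fintype.card ι - k) * ((Fintype.card ι).choose k : ℝ)) *
        (1 + (k : ℝ) • M).det = ((Fintype.card ι).factorial : ℝ) * M.det := by
  classical
  set n := Fintype.card ι with hn
  set q : ℝ[X] := ((X : ℝ[X]) • M.map C + (1 : Matrix ι ι ℝ).map C).det with hq
  have heval : ∀ t : ℝ, q.eval t = (1 + t • M).det := by
    intro t
    rw [hq, ← Polynomial.coe_evalRingHom, RingHom.map_det]
    congr 1
    ext i j
    simp only [RingHom.mapMatrix_apply, Matrix.map_apply, Matrix.add_apply, Matrix.smul_apply,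
      map_add, smul_eq_mul, coe_evalRingHom, eval_mul, eval_X, eval_C]
    ring
  have hdeg : q.natDegree ≤ n := Polynomial.natDegree_det_X_add_C_le _ _
  have hcoeff : q.coeff n = M.det := Polynomial.coeff_det_X_add_C_card _ _
  have key : (fwdDiff (1 : ℝ))^[n] (fun t => q.eval t) 0 = (n.factorial : ℝ) * M.det := by
    rcases hdeg.lt_or_eq with h | h
    · have := Polynomial.fwdDiff_iter_eq_zero_of_degree_lt (P := q) (n := n) h
      rw [← hcoeff, Polynomial.coeff_eq_zero_of_natDegree_lt h, mul_zero]
      exact congrFun this 0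
    · have := Polynomial.fwdDiff_iter_degree_eq_factorial (P := q)
      rw [h] at this
      have h2 := congrFun this 0
      rw [← hcoeff]
      rw [show q.coeff n = q.leadingCoeff by rw [← h]; rfl]
      simpa [mul_comm] using h2
  rw [fwdDiff_iter_eq_sum_shift] at key
  rw [← key]
  refine Finset.sum_congr rfl fun k _ => ?_
  simp only [zero_add, nsmul_eq_mul, mul_one, heval, zsmul_eq_mul]
  push_cast
  ring

variable {E : Type*} [NormedAddCommGroup E] [NormedSpace ℝ E] [FiniteDimensional ℝ E]

theorem clm_det_fd (M : E →L[ℝ] E) :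
    ∑ k ∈ range (Module.finrank ℝ E + 1),
      ((-1 : ℝ) ^ (Module.finrank ℝ E - k) * ((Module.finrank ℝ E).choose k : ℝ)) *
        (1 + (k : ℝ) • M).det = ((Module.finrank ℝ E).factorial : ℝ) * M.det := by
  classical
  set b := Module.finBasis ℝ E
  have h := matrix_det_fd (LinearMap.toMatrix b b (M : E →ₗ[ℝ] E))
  rw [Fintype.card_fin] at h
  rw [show M.det = LinearMap.det (M : E →ₗ[ℝ] E) from rfl, ← LinearMap.det_toMatrix b, ← h]
  refine Finset.sum_congr rfl fun k _ => ?_
  congr 1
  rw [show (1 + (k : ℝ) • M).det = LinearMap.det ((1 + (k : ℝ) • M : E →L[ℝ] E) : E →ₗ[ℝ] E)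
    from rfl, ← LinearMap.det_toMatrix b]
  congr 1
  simp [map_add, LinearMap.toMatrix_one]

end Pool.Agent.SmoothDegree
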