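import Mathlib
import Pool.Agent.SmoothDegree.DetPoly

/-!
# The integral of the Jacobian of a compactly supported map vanishes
-/

set_option autoImplicit false

namespace Pool.Agent.SmoothDegree

open Finset MeasureTheory Metric Set Filter Topology
open scoped NNReal ContDiff

variable {E : Type*} [NormedAddCommGroup E] [NormedSpace ℝ E] [FiniteDimensional ℝ E]

theorem det_ne_zero_of_inj (A : E →L[ℝ] E) (h : ∀ v, A v = 0 → v = 0) : A.det ≠ 0 := by
  have hk : LinearMap.ker (A : E →ₗ[ℝ] E) = ⊥ := by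
    rw [LinearMap.ker_eq_bot']
    intro v hv
    exact h v hv
  have := (LinearMap.isUnit_iff_ker_eq_bot (A : E →ₗ[ℝ] E)).2 hk
  have h2 := (LinearMap.isUnit_iff_isUnit_det (A : E →ₗ[ℝ] E)).1 this
  exact h2.ne_zero

theorem inj_of_det_ne_zero (A : E →L[ℝ] E) (h : A.det ≠ 0) : ∀ v, A v = 0 → v = 0 := by
  have h2 : IsUnit (LinearMap.det (A : E →ₗ[ℝ] E)) := isUnit_iff_ne_zero.2 h
  have := (LinearMap.isUnit_iff_isUnit_det (A : E →ₗ[ℝ] E)).2 h2
  have hk := (LinearMap.isUnit_iff_ker_eq_bot (A : E →ₗ[ℝ] E)).1 this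
  intro v hv
  exact LinearMap.ker_eq_bot'.1 hk v hv

omit [FiniteDimensional ℝ E] in
theorem continuous_clm_det : Continuous fun A : E →L[ℝ] E => A.det :=
  ContinuousLinearMap.continuous_det

theorem det_one_add_pos (A : E →L[ℝ] E) (hA : ‖A‖ < 1) : 0 < (1 + A).det := by
  have hne : ∀ s : ℝ, s ∈ Icc (0:ℝ) 1 → (1 + s • A).det ≠ 0 := by
    intro s hs
    apply det_ne_zero_of_inj
    intro v hv
    have h1 : v = -(s • A v) := by
      have : v + s • A v = 0 := by simpa using hv
      exact eq_neg_of_add_eq_zero_left this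
    have h2 : ‖v‖ ≤ ‖A‖ * ‖v‖ := by
      calc ‖v‖ = ‖-(s • A v)‖ := by rw [← h1]
        _ = |s| * ‖A v‖ := by rw [norm_neg, norm_smul, Real.norm_eq_abs]
        _ ≤ 1 * ‖A v‖ := by
            gcongr
            rw [abs_of_nonneg hs.1]; exact hs.2
        _ ≤ ‖A‖ * ‖v‖ := by rw [one_mul]; exact A.le_opNorm v
    by_contra hv0
    have hpos : 0 < ‖v‖ := norm_pos_iff.2 hv0
    nlinarith
  have hcont : Continuous fun s : ℝ => (1 + s • A).det := by
    apply continuous_clm_det.comp
    fun_prop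
  by_contra hneg
  push Not at hneg
  have h0 : (1 + (0:ℝ) • A).det = 1 := by
    simp [ContinuousLinearMap.det]
  have h1 : (1 + (1:ℝ) • A).det ≤ 0 := by simpa using hneg
  have := intermediate_value_Icc' (zero_le_one) (hcont.continuousOn (s := Icc (0:ℝ) 1))
  have h3 : (0:ℝ) ∈ Icc ((1 + (1:ℝ) • A).det) ((1 + (0:ℝ) • A).det) := ⟨h1, by rw [h0]; norm_num⟩
  obtain ⟨s, hs, hs0⟩ := this h3
  exact hne s hs hs0

variable [MeasurableSpace E] [BorelSpace E] (μ : Measure E) [μ.IsAddHaarMeasure]

/-- For a compactly supported `C¹` map `h` and small `t`, the map `x ↦ x + t h x` is a bijection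
of a big ball, so its Jacobian integrates to the volume of the ball. -/
theorem integral_det_one_add {h : E → E} (hh : ContDiff ℝ 1 h) {ρ : ℝ}
    (hρ : tsupport h ⊆ closedBall 0 ρ) {C : ℝ} (hC : ∀ x, ‖fderiv ℝ h x‖ ≤ C)
    {t : ℝ} (ht : |t| * C < 1) :
    ∫ x in closedBall (0:E) ρ, (1 + t • fderiv ℝ h x).det ∂μ
      = (μ (closedBall (0:E) ρ)).toReal := by
  set g : E → E := fun x => x + t • h x with hg
  have hC0 : 0 ≤ C := (norm_nonneg _).trans (hC 0)
  have hdiff : Differentiable ℝ h := hh.differentiable one_ne_zero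
  have hgd : ∀ x, HasFDerivAt g (1 + t • fderiv ℝ h x) x := by
    intro x
    exact (hasFDerivAt_id x).add ((hdiff x).hasFDerivAt.const_smul t)
  have hlip : ∀ x y, ‖h x - h y‖ ≤ C * ‖x - y‖ := by
    intro x y
    exact Convex.norm_image_sub_le_of_norm_fderiv_le (𝕜 := ℝ) (s := univ)
      (fun z _ => hdiff z) (fun z _ => hC z) convex_univ (mem_univ y) (mem_univ x)
  have happ : ApproximatesLinearOn g ((ContinuousLinearEquiv.refl ℝ E : E ≃L[ℝ] E) : E →L[ℝ] E)
      univ ⟨|t| * C, by positivity⟩ := by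
    intro x _ y _
    have : g x - g y - (x - y) = t • (h x - h y) := by
      simp only [hg, smul_sub]; abel
    change ‖g x - g y - (x - y)‖ ≤ (|t| * C) * ‖x - y‖
    rw [this, norm_smul, Real.norm_eq_abs, mul_assoc]
    exact mul_le_mul_of_nonneg_left (hlip x y) (abs_nonneg t)
  have hc : Subsingleton E ∨ (⟨|t| * C, by positivity⟩ : ℝ≥0) <
      ‖((ContinuousLinearEquiv.refl ℝ E).symm : E →L[ℝ] E)‖₊⁻¹ := by
    rcases subsingleton_or_nontrivial E with hE | hE
    · exact Or.inl hE
    · right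
      have : ‖((ContinuousLinearEquiv.refl ℝ E).symm : E →L[ℝ] E)‖₊ = 1 := by
        have : ((ContinuousLinearEquiv.refl ℝ E).symm : E →L[ℝ] E) = ContinuousLinearMap.id ℝ E :=
          rfl
        rw [this]
        ext
        simp
      rw [this, inv_one]
      exact_mod_cast ht
  have hbij : Function.Bijective g := by
    have := (happ.toHomeomorph g hc).bijective
    exact this
  have himg : g '' closedBall (0:E) ρ = closedBall (0:E) ρ := by
    have hout : ∀ x, x ∉ closedBall (0:E) ρ → g x = x := by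
      intro x hx
      have : h x = 0 := image_eq_zero_of_notMem_tsupport (fun hx' => hx (hρ hx'))
      simp [hg, this]
    apply Set.Subset.antisymm
    · rintro _ ⟨x, hx, rfl⟩
      by_contra hy
      have := hout _ hy
      exact hy (by rw [hbij.1 this]; exact hx)
    · intro y hy
      obtain ⟨x, rfl⟩ := hbij.2 y
      refine ⟨x, ?_, rfl⟩
      by_contra hx
      rw [hout x hx] at hy
      exact hx hy
  have hcv := integral_image_eq_integral_abs_det_fderiv_smul μ
    (measurableSet_closedBall (x := (0:E)) (ε := ρ))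
    (fun x _ => (hgd x).hasFDerivWithinAt) hbij.1.injOn (fun _ => (1:ℝ))
  rw [himg] at hcv
  rw [setIntegral_const, smul_eq_mul, mul_one] at hcv
  rw [← Measure.real_def, hcv]
  refine setIntegral_congr_fun measurableSet_closedBall fun x _ => ?_
  have hpos : 0 < (1 + t • fderiv ℝ h x).det := by
    apply det_one_add_pos
    rw [norm_smul, Real.norm_eq_abs]
    exact lt_of_le_of_lt (mul_le_mul_of_nonneg_left (hC x) (abs_nonneg t)) ht
  simp only [smul_eq_mul, mul_one]
  rw [abs_of_pos hpos]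

theorem integral_det_fderiv_eq_zero [Nontrivial E] {h : E → E} (hh : ContDiff ℝ 1 h)
    (hc : HasCompactSupport h) : ∫ x, (fderiv ℝ h x).det ∂μ = 0 := by
  have hcd : Continuous (fderiv ℝ h) := hh.continuous_fderiv one_ne_zero
  have hcs : HasCompactSupport (fderiv ℝ h) := hc.fderiv ℝ
  obtain ⟨C, hC⟩ : ∃ C, ∀ x, ‖fderiv ℝ h x‖ ≤ C := hcs.exists_bound_of_continuous hcd
  have hC0 : 0 ≤ C := (norm_nonneg _).trans (hC 0)
  obtain ⟨ρ, hρ⟩ : ∃ ρ, tsupport h ⊆ closedBall (0:E) ρ :=
    hc.isCompact.isBounded.subset_closedBall 0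
  set n := Module.finrank ℝ E with hn
  have hnpos : 0 < n := Module.finrank_pos
  set τ : ℝ := 1 / ((n + 1) * (C + 1)) with hτ
  have hτpos : 0 < τ := by positivity
  -- restrict to the ball
  have hball : ∫ x, (fderiv ℝ h x).det ∂μ = ∫ x in closedBall (0:E) ρ, (fderiv ℝ h x).det ∂μ := by
    symm
    apply setIntegral_eq_integral_of_forall_compl_eq_zero
    intro x hx
    have h0 : fderiv ℝ h x = 0 := by
      apply image_eq_zero_of_notMem_tsupport
      intro hx'
      exact hx (hρ (tsupport_fderiv_subset ℝ hx'))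
    rw [h0]
    have : (0 : E →L[ℝ] E).det = (0:ℝ) ^ Module.finrank ℝ E := by
      have := LinearMap.det_smul (0:ℝ) (LinearMap.id : E →ₗ[ℝ] E)
      simpa [ContinuousLinearMap.det] using this
    rw [this, zero_pow (by omega)]
  rw [hball]
  have hint : ∀ t : ℝ, IntegrableOn (fun x => (1 + t • fderiv ℝ h x).det)
      (closedBall (0:E) ρ) μ := by
    intro t
    apply ContinuousOn.integrableOn_compact (isCompact_closedBall _ _)
    apply Continuous.continuousOn
    apply continuous_clm_det.comp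
    fun_prop
  have hval : ∀ k ∈ range (n + 1), ∫ x in closedBall (0:E) ρ,
      (1 + (k : ℝ) • (τ • fderiv ℝ h x)).det ∂μ = (μ (closedBall (0:E) ρ)).toReal := by
    intro k hk
    have : ∀ x, (1 + (k : ℝ) • (τ • fderiv ℝ h x)) = 1 + ((k:ℝ) * τ) • fderiv ℝ h x := by
      intro x; rw [smul_smul]
    simp_rw [this]
    apply integral_det_one_add μ hh hρ hC
    rw [abs_of_nonneg (by positivity)]
    have hk' : (k:ℝ) ≤ n := by
      have := Finset.mem_range.1 hk
      exact_mod_cast Nat.lt_succ_iff.1 this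
    rw [hτ, mul_one_div, div_mul_eq_mul_div, div_lt_one (by positivity)]
    nlinarith [hC0, hk', (Nat.cast_nonneg n : (0:ℝ) ≤ n)]
  have hsum : ∫ x in closedBall (0:E) ρ, ((n.factorial : ℝ) * (τ • fderiv ℝ h x).det) ∂μ = 0 := by
    have h1 : ∀ x, (n.factorial : ℝ) * (τ • fderiv ℝ h x).det =
        ∑ k ∈ Finset.range (n + 1), ((-1 : ℝ) ^ (n - k) * (n.choose k : ℝ)) *
        (1 + (k : ℝ) • (τ • fderiv ℝ h x)).det := fun x => (clm_det_fd (τ • fderiv ℝ h x)).symm
    simp_rw [h1]
    rw [integral_finsetSum]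
    · simp_rw [integral_const_mul]
      rw [Finset.sum_congr rfl (fun k hk => by rw [hval k hk])]
      rw [← Finset.sum_mul]
      have h2 : ∑ k ∈ Finset.range (n + 1), ((-1 : ℝ) ^ (n - k) * (n.choose k : ℝ)) = 0 := by
        have := add_pow (1:ℝ) (-1) n
        rw [add_neg_cancel, zero_pow hnpos.ne'] at this
        rw [this]
        refine Finset.sum_congr rfl fun k _ => by ring
      rw [h2, zero_mul]
    · intro k _
      apply Integrable.const_mul
      have : ∀ x, (1 + (k : ℝ) • (τ • fderiv ℝ h x)) = 1 + ((k:ℝ) * τ) • fderiv ℝ h x := by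
        intro x; rw [smul_smul]
      simp_rw [this]
      exact hint _
  have hdet : ∀ x, (τ • fderiv ℝ h x).det = τ ^ n * (fderiv ℝ h x).det := by
    intro x
    exact LinearMap.det_smul τ (fderiv ℝ h x : E →ₗ[ℝ] E)
  simp_rw [hdet] at hsum
  rw [integral_const_mul, integral_const_mul] at hsum
  have hf : (n.factorial : ℝ) ≠ 0 := by positivity
  have hτn : τ ^ n ≠ 0 := by positivity
  exact (mul_eq_zero.1 ((mul_eq_zero.1 hsum).resolve_left hf)).resolve_left hτn

end Pool.Agent.SmoothDegree
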