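import Mathlib
import Pool.Agent.SmoothDegree.NullLagrangian

/-!
# Homotopy invariance of the degree integral
-/

set_option autoImplicit false

namespace Pool.Agent.SmoothDegree

open MeasureTheory Metric Set Filter Topology
open scoped NNReal ContDiff Manifold

variable {E : Type*} [NormedAddCommGroup E] [NormedSpace ℝ E] [FiniteDimensional ℝ E]

/-- Smooth cutoff functions on a finite-dimensional normed space. -/
theorem exists_cutoff {Z t : Set E} (hZ : IsClosed Z) (hZt : Z ⊆ interior t) :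
    ∃ χ : E → ℝ, ContDiff ℝ ∞ χ ∧ (∀ᶠ x in 𝓝ˢ Z, χ x = 1) ∧ (∀ x ∉ t, χ x = 0) ∧
      ∀ x, χ x ∈ Icc (0:ℝ) 1 := by
  obtain ⟨f, h1, h0, hI⟩ := exists_contMDiffMap_one_nhds_of_subset_interior (n := (⊤ : ℕ∞))
    (𝓘(ℝ, E)) hZ hZt
  exact ⟨f, f.contMDiff.contDiff, h1, h0, hI⟩

omit [FiniteDimensional ℝ E] in
theorem det_comp (A B : E →L[ℝ] E) : (A.comp B).det = A.det * B.det := by
  exact LinearMap.det_comp (A : E →ₗ[ℝ] E) (B : E →ₗ[ℝ] E)

variable [MeasurableSpace E] [BorelSpace E] (μ : Measure E) [μ.IsAddHaarMeasure]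

omit [FiniteDimensional ℝ E] in
theorem integrableOn_det_fderiv {G : E → E} (h : ContDiff ℝ 1 G) {K : Set E} (hK : IsCompact K) :
    IntegrableOn (fun x => (fderiv ℝ G x).det) K μ := by
  apply ContinuousOn.integrableOn_compact hK
  exact (continuous_clm_det.comp (h.continuous_fderiv one_ne_zero)).continuousOn

theorem integral_det_eq_of_sub [Nontrivial E] {G₀ G₁ : E → E} (h0 : ContDiff ℝ 1 G₀)
    (h1 : ContDiff ℝ 1 G₁) {K : Set E} (hK : IsCompact K)
    (hsub : tsupport (fun x => G₁ x - G₀ x) ⊆ K) :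
    ∫ x in K, (fderiv ℝ G₁ x).det ∂μ = ∫ x in K, (fderiv ℝ G₀ x).det ∂μ := by
  obtain ⟨L, hL, hKL, -⟩ := exists_compact_between hK isOpen_univ (subset_univ K)
  obtain ⟨χ, hχ, hχ1, hχ0, -⟩ := exists_cutoff hK.isClosed hKL
  have hχ' : ContDiff ℝ 1 χ := hχ.of_le (by exact_mod_cast le_top)
  have hχs : HasCompactSupport χ := HasCompactSupport.intro hL hχ0
  set a : E → E := fun x => χ x • G₀ x with ha
  set b : E → E := fun x => χ x • G₁ x with hb
  have hac : ContDiff ℝ 1 a := hχ'.smul h0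
  have hbc : ContDiff ℝ 1 b := hχ'.smul h1
  have has : HasCompactSupport a := hχs.smul_right
  have hbs : HasCompactSupport b := hχs.smul_right
  have ia := integral_det_fderiv_eq_zero μ hac has
  have ib := integral_det_fderiv_eq_zero μ hbc hbs
  have hint : ∀ {c : E → E}, ContDiff ℝ 1 c → HasCompactSupport c →
      Integrable (fun x => (fderiv ℝ c x).det) μ := by
    intro c hc hcs
    apply Continuous.integrable_of_hasCompactSupport
    · exact continuous_clm_det.comp (hc.continuous_fderiv one_ne_zero)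
    · apply (hcs.fderiv ℝ).comp_left (g := fun A : E →L[ℝ] E => A.det)
      have : (0 : E →L[ℝ] E).det = (0:ℝ) ^ Module.finrank ℝ E := by
        have := LinearMap.det_smul (0:ℝ) (LinearMap.id : E →ₗ[ℝ] E)
        simpa [ContinuousLinearMap.det] using this
      rw [this, zero_pow (Module.finrank_pos).ne']
  have key : ∫ x, ((fderiv ℝ b x).det - (fderiv ℝ a x).det) ∂μ = 0 := by
    rw [integral_sub (hint hbc hbs) (hint hac has), ia, ib, sub_zero]
  have hout : ∀ x ∉ K, (fderiv ℝ b x).det - (fderiv ℝ a x).det = 0 := by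
    intro x hx
    have hx' : x ∉ tsupport (fun x => G₁ x - G₀ x) := fun h => hx (hsub h)
    have hev : (fun x => G₁ x - G₀ x) =ᶠ[𝓝 x] 0 := notMem_tsupport_iff_eventuallyEq.1 hx'
    have : b =ᶠ[𝓝 x] a := by
      filter_upwards [hev] with y hy
      have : G₁ y = G₀ y := sub_eq_zero.1 hy
      simp [ha, hb, this]
    rw [this.fderiv_eq, sub_self]
  have hin : ∀ x ∈ K, (fderiv ℝ b x).det - (fderiv ℝ a x).det =
      (fderiv ℝ G₁ x).det - (fderiv ℝ G₀ x).det := by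
    intro x hx
    have h1x : ∀ᶠ y in 𝓝 x, χ y = 1 := by
      exact Filter.Eventually.filter_mono (nhds_le_nhdsSet hx) hχ1
    have e1 : b =ᶠ[𝓝 x] G₁ := by
      filter_upwards [h1x] with y hy
      simp [hb, hy]
    have e0 : a =ᶠ[𝓝 x] G₀ := by
      filter_upwards [h1x] with y hy
      simp [ha, hy]
    rw [e1.fderiv_eq, e0.fderiv_eq]
  rw [← setIntegral_eq_integral_of_forall_compl_eq_zero hout] at key
  rw [setIntegral_congr_fun hK.measurableSet hin,
    integral_sub (integrableOn_det_fderiv μ h1 hK) (integrableOn_det_fderiv μ h0 hK)] at key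
  exact sub_eq_zero.1 key

/-- **Homotopy invariance**: the degree integrals of two maps joined by a straight-line homotopy
whose values on the frontier of `U` stay outside the ball of radius `r` agree. -/
theorem degree_integral_homotopy [Nontrivial E] {Φ : E → E} (hΦ : ContDiff ℝ 1 Φ) {r : ℝ}
    (hΦ0 : ∀ y, r < ‖y‖ → (fderiv ℝ Φ y).det = 0)
    {F₀ F₁ : E → E} (h0 : ContDiff ℝ 1 F₀) (h1 : ContDiff ℝ 1 F₁) {U : Set E} (hU : IsCompact U)
    (hfr : ∀ x ∈ frontier U, ∀ t ∈ Icc (0:ℝ) 1, r < ‖F₀ x + t • (F₁ x - F₀ x)‖) :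
    ∫ x in U, (fderiv ℝ (Φ ∘ F₁) x).det ∂μ = ∫ x in U, (fderiv ℝ (Φ ∘ F₀) x).det ∂μ := by
  classical
  have hF0c := h0.continuous
  have hF1c := h1.continuous
  set Z : Set E := Prod.fst '' {p : E × ℝ | p ∈ U ×ˢ Icc (0:ℝ) 1 ∧
    ‖F₀ p.1 + p.2 • (F₁ p.1 - F₀ p.1)‖ ≤ r} with hZdef
  have hZc : IsCompact Z := by
    apply IsCompact.image _ continuous_fst
    have : {p : E × ℝ | p ∈ U ×ˢ Icc (0:ℝ) 1 ∧ ‖F₀ p.1 + p.2 • (F₁ p.1 - F₀ p.1)‖ ≤ r} =
      (U ×ˢ Icc (0:ℝ) 1) ∩ {p : E × ℝ | ‖F₀ p.1 + p.2 • (F₁ p.1 - F₀ p.1)‖ ≤ r} := rfl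
    rw [this]
    apply (hU.prod isCompact_Icc).inter_right
    apply isClosed_le _ continuous_const
    fun_prop
  have hZmem : ∀ x, x ∈ Z ↔ x ∈ U ∧ ∃ t ∈ Icc (0:ℝ) 1, ‖F₀ x + t • (F₁ x - F₀ x)‖ ≤ r := by
    intro x
    constructor
    · rintro ⟨⟨x', t⟩, ⟨⟨hx, ht⟩, hle⟩, rfl⟩
      exact ⟨hx, t, ht, hle⟩
    · rintro ⟨hx, t, ht, hle⟩
      exact ⟨(x, t), ⟨⟨hx, ht⟩, hle⟩, rfl⟩
  have hZU : Z ⊆ interior U := by
    intro x hx
    obtain ⟨hxU, t, ht, hle⟩ := (hZmem x).1 hx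
    by_contra hni
    have : x ∈ frontier U := ⟨subset_closure hxU, hni⟩
    exact absurd hle (not_le.2 (hfr x this t ht))
  obtain ⟨L, hL, hZL, hLU⟩ := exists_compact_between hZc isOpen_interior hZU
  obtain ⟨χ, hχ, hχ1, hχ0, hχI⟩ := exists_cutoff hZc.isClosed hZL
  have hχ' : ContDiff ℝ 1 χ := hχ.of_le (by exact_mod_cast le_top)
  set F' : E → E := fun x => F₀ x + χ x • (F₁ x - F₀ x) with hF'
  have hF'c : ContDiff ℝ 1 F' := h0.add (hχ'.smul (h1.sub h0))
  have hG0 : ContDiff ℝ 1 (Φ ∘ F₀) := hΦ.comp h0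
  have hG' : ContDiff ℝ 1 (Φ ∘ F') := hΦ.comp hF'c
  have hsub : tsupport (fun x => (Φ ∘ F') x - (Φ ∘ F₀) x) ⊆ U := by
    have : tsupport (fun x => (Φ ∘ F') x - (Φ ∘ F₀) x) ⊆ L := by
      apply closure_minimal _ hL.isClosed
      intro x hx
      by_contra hxL
      apply hx
      simp [hF', hχ0 x hxL]
    exact this.trans (hLU.trans interior_subset)
  have e1 := integral_det_eq_of_sub μ hG0 hG' hU hsub
  rw [← e1]
  refine setIntegral_congr_fun hU.measurableSet fun x hx => ?_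
  have hdetcomp : ∀ F : E → E, ContDiff ℝ 1 F → (fderiv ℝ (Φ ∘ F) x).det =
      (fderiv ℝ Φ (F x)).det * (fderiv ℝ F x).det := by
    intro F hF
    rw [fderiv_comp x (hΦ.differentiable one_ne_zero _) (hF.differentiable one_ne_zero _),
      det_comp]
  by_cases hxZ : x ∈ Z
  · have h1x : ∀ᶠ y in 𝓝 x, χ y = 1 :=
      Filter.Eventually.filter_mono (nhds_le_nhdsSet hxZ) hχ1
    have e : (Φ ∘ F₁) =ᶠ[𝓝 x] (Φ ∘ F') := by
      filter_upwards [h1x] with y hy
      simp [hF', hy]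
    rw [e.fderiv_eq]
  · have hall : ∀ t ∈ Icc (0:ℝ) 1, r < ‖F₀ x + t • (F₁ x - F₀ x)‖ := by
      intro t ht
      by_contra hle
      exact hxZ ((hZmem x).2 ⟨hx, t, ht, not_lt.1 hle⟩)
    have a1 : (fderiv ℝ Φ (F₁ x)).det = 0 := by
      apply hΦ0
      have := hall 1 (by simp)
      simpa using this
    have a2 : (fderiv ℝ Φ (F' x)).det = 0 := hΦ0 _ (hall (χ x) (hχI x))
    rw [hdetcomp F₁ h1, hdetcomp F' hF'c, a1, a2, zero_mul, zero_mul]

end Pool.Agent.SmoothDegree
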