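import Mathlib

/-!
# Local degree of a map between spaces of the same dimension, and property (R)

Definitions only.  `E` is `ℝⁿ` in the applications.
-/

set_option autoImplicit false

namespace Pool.Agent.SmoothDegree

open Set Filter Topology

variable {E : Type*} [NormedAddCommGroup E] [NormedSpace ℝ E]

/-- `x` is a critical point of `F : E → E`: the Jacobian determinant vanishes at `x`. -/
def IsCriticalPoint (F : E → E) (x : E) : Prop :=
  (fderiv ℝ F x).det = 0

/-- `y` is a regular value of `F`: the Jacobian determinant is nonzero at every preimage of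
`y`. -/
def IsRegularValue (F : E → E) (y : E) : Prop :=
  ∀ x, F x = y → (fderiv ℝ F x).det ≠ 0

/-- `U` is a compact neighbourhood of `x` whose only point in the fibre of `F` through `x` is
`x` itself: `U ∩ F⁻¹(F x) = {x}`. -/
structure IsolatingNhd (F : E → E) (x : E) (U : Set E) : Prop where
  isCompact : IsCompact U
  mem_nhds : U ∈ 𝓝 x
  inter_fibre : U ∩ F ⁻¹' {F x} = {x}

/-- `x` is an isolated point of the fibre `F⁻¹(F x)`. -/
def IsolatedInFibre (F : E → E) (x : E) : Prop :=
  ∃ U, IsolatingNhd F x U

/-- The sign of the Jacobian determinant of `F` at `x`, as an integer (`-1`, `0` or `1`). -/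
noncomputable def jacobianSign (F : E → E) (x : E) : ℤ :=
  (SignType.sign ((fderiv ℝ F x).det) : ℤ)

/-- `k` is the local degree of `F` at `x`: for every compact neighbourhood `U` of `x` with
`U ∩ F⁻¹(F x) = {x}`, and every regular value `y'` close enough to `F x`, the set
`U ∩ F⁻¹(y')` is finite and the sum of the signs of the Jacobian determinant of `F` over it
is `k`. -/
def HasLocalDegree (F : E → E) (x : E) (k : ℤ) : Prop :=
  ∀ U, IsolatingNhd F x U → ∀ᶠ y' in 𝓝 (F x), IsRegularValue F y' →
    (U ∩ F ⁻¹' {y'}).Finite ∧ ∑ᶠ x' ∈ U ∩ F ⁻¹' {y'}, jacobianSign F x' = k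

/-- Property (R) of `F` at `x`: with `k` the local degree of `F` at `x`, for every sufficiently
small compact neighbourhood `U` of `x` with `U ∩ F⁻¹(F x) = {x}` and every neighbourhood `V` of
`F x`, there is a regular value `y' ∈ V` such that `U ∩ F⁻¹(y')` has exactly `|k|` points. -/
def PropertyR (F : E → E) (x : E) : Prop :=
  ∃ k : ℤ, HasLocalDegree F x k ∧
    ∀ᶠ U in (𝓝 x).smallSets, IsolatingNhd F x U →
      ∀ V ∈ 𝓝 (F x), ∃ y' ∈ V, IsRegularValue F y' ∧
        (U ∩ F ⁻¹' {y'}).encard = (k.natAbs : ℕ∞)

end Pool.Agent.SmoothDegree
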