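import Mathlib
import Pool.Agent.SmoothDegree.Homotopy

/-!
# A smooth map whose Jacobian is a nonnegative, nonzero, compactly supported function
-/

set_option autoImplicit false

namespace Pool.Agent.SmoothDegree

open MeasureTheory Metric Set Filter Topology
open scoped NNReal ContDiff

/-- The coordinatewise smooth step. -/
noncomputable def stepMap (n : ℕ) : (Fin n → ℝ) → (Fin n → ℝ) :=
  fun y i => Real.smoothTransition (y i)

theorem stepMap_contDiff (n : ℕ) : ContDiff ℝ ∞ (stepMap n) := by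
  rw [contDiff_pi]
  intro i
  exact (Real.smoothTransition.contDiff (n := (⊤ : ℕ∞))).comp (contDiff_apply ℝ ℝ i)

theorem det_pi_smul_proj {n : ℕ} (c : Fin n → ℝ) :
    (ContinuousLinearMap.pi fun i => c i • (ContinuousLinearMap.proj i :
      (Fin n → ℝ) →L[ℝ] ℝ)).det = ∏ i, c i := by
  have : ((ContinuousLinearMap.pi fun i => c i • (ContinuousLinearMap.proj i :
      (Fin n → ℝ) →L[ℝ] ℝ) : (Fin n → ℝ) →L[ℝ] (Fin n → ℝ)) : (Fin n → ℝ) →ₗ[ℝ] (Fin n → ℝ))
      = Matrix.toLin' (Matrix.diagonal c) := by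
    apply LinearMap.ext
    intro v
    ext i
    simp [Matrix.toLin'_apply, Matrix.mulVec_diagonal]
  rw [ContinuousLinearMap.det, this, LinearMap.det_toLin', Matrix.det_diagonal]

theorem stepMap_det {n : ℕ} (y : Fin n → ℝ) :
    (fderiv ℝ (stepMap n) y).det = ∏ i, deriv Real.smoothTransition (y i) := by
  have hd : HasFDerivAt (stepMap n) (ContinuousLinearMap.pi fun i =>
      (deriv Real.smoothTransition (y i)) • (ContinuousLinearMap.proj i :
      (Fin n → ℝ) →L[ℝ] ℝ)) y := by
    apply hasFDerivAt_pi.2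
    intro i
    have h1 : HasDerivAt Real.smoothTransition (deriv Real.smoothTransition (y i)) (y i) :=
      ((Real.smoothTransition.contDiff (n := (1 : ℕ∞))).differentiable
        (by norm_num) _).hasDerivAt
    exact h1.comp_hasFDerivAt y (hasFDerivAt_apply i y)
  rw [hd.fderiv, det_pi_smul_proj]

theorem deriv_smoothTransition_eq_zero {t : ℝ} (ht : 1 < |t|) :
    deriv Real.smoothTransition t = 0 := by
  rcases lt_abs.1 ht with h | h
  · have : Real.smoothTransition =ᶠ[𝓝 t] fun _ => (1:ℝ) := by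
      filter_upwards [lt_mem_nhds h] with s hs
      exact Real.smoothTransition.one_of_one_le hs.le
    rw [this.deriv_eq]; simp
  · have h0 : t < 0 := by linarith
    have : Real.smoothTransition =ᶠ[𝓝 t] fun _ => (0:ℝ) := by
      filter_upwards [gt_mem_nhds h0] with s hs
      exact Real.smoothTransition.zero_of_nonpos hs.le
    rw [this.deriv_eq]; simp

theorem exists_deriv_smoothTransition_ne_zero : ∃ t, deriv Real.smoothTransition t ≠ 0 := by
  by_contra h
  push Not at h
  have hd : Differentiable ℝ Real.smoothTransition :=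
    (Real.smoothTransition.contDiff (n := (1 : ℕ∞))).differentiable (by norm_num)
  have := is_const_of_deriv_eq_zero hd h 0 1
  simp at this

theorem exists_primitive (E : Type*) [NormedAddCommGroup E] [NormedSpace ℝ E]
    [FiniteDimensional ℝ E] : ∃ Φ : E → E, ContDiff ℝ ∞ Φ ∧
      (∃ r, ∀ y, r < ‖y‖ → (fderiv ℝ Φ y).det = 0) ∧ (∀ y, 0 ≤ (fderiv ℝ Φ y).det) ∧
      ∃ y, (fderiv ℝ Φ y).det ≠ 0 := by
  classical
  set n := Module.finrank ℝ E with hn
  obtain ⟨L⟩ : Nonempty (E ≃L[ℝ] (Fin n → ℝ)) :=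
    FiniteDimensional.nonempty_continuousLinearEquiv_of_finrank_eq (by simp [hn])
  set Φ : E → E := fun y => L.symm (stepMap n (L y)) with hΦ
  have hdet : ∀ y, (fderiv ℝ Φ y).det = ∏ i, deriv Real.smoothTransition (L y i) := by
    intro y
    have h1 : HasFDerivAt Φ ((L.symm : (Fin n → ℝ) →L[ℝ] E).comp
        ((fderiv ℝ (stepMap n) (L y)).comp (L : E →L[ℝ] (Fin n → ℝ)))) y := by
      have hL : HasFDerivAt (fun y => L y) (L : E →L[ℝ] (Fin n → ℝ)) y := L.hasFDerivAt
      have hs : HasFDerivAt (stepMap n) (fderiv ℝ (stepMap n) (L y)) (L y) :=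
        ((stepMap_contDiff n).differentiable (by norm_num) _).hasFDerivAt
      exact (L.symm : (Fin n → ℝ) →L[ℝ] E).hasFDerivAt.comp y (hs.comp y hL)
    rw [h1.fderiv, ← stepMap_det]
    have := LinearMap.det_conj (fderiv ℝ (stepMap n) (L y) : (Fin n → ℝ) →ₗ[ℝ] (Fin n → ℝ))
      (L.symm : (Fin n → ℝ) ≃ₗ[ℝ] E)
    exact this
  refine ⟨Φ, ?_, ?_, ?_, ?_⟩
  · exact L.symm.contDiff.comp ((stepMap_contDiff n).comp L.contDiff)
  · refine ⟨‖(L.symm : (Fin n → ℝ) →L[ℝ] E)‖ , fun y hy => ?_⟩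
    rw [hdet]
    obtain ⟨i, hi⟩ : ∃ i, 1 < |L y i| := by
      by_contra hcon
      push Not at hcon
      have h1 : ‖L y‖ ≤ 1 := by
        rw [pi_norm_le_iff_of_nonneg zero_le_one]
        intro i
        rw [Real.norm_eq_abs]
        exact hcon i
      have h2 : ‖y‖ ≤ ‖(L.symm : (Fin n → ℝ) →L[ℝ] E)‖ * ‖L y‖ := by
        have := (L.symm : (Fin n → ℝ) →L[ℝ] E).le_opNorm (L y)
        simpa using this
      have h3 : ‖(L.symm : (Fin n → ℝ) →L[ℝ] E)‖ * ‖L y‖ ≤
          ‖(L.symm : (Fin n → ℝ) →L[ℝ] E)‖ * 1 :=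
        mul_le_mul_of_nonneg_left h1 (norm_nonneg _)
      linarith
    exact Finset.prod_eq_zero (Finset.mem_univ i) (deriv_smoothTransition_eq_zero hi)
  · intro y
    rw [hdet]
    exact Finset.prod_nonneg fun i _ => Real.smoothTransition.monotone.deriv_nonneg
  · obtain ⟨t, ht⟩ := exists_deriv_smoothTransition_ne_zero
    refine ⟨L.symm fun _ => t, ?_⟩
    rw [hdet]
    simp only [ContinuousLinearEquiv.apply_symm_apply]
    exact Finset.prod_ne_zero_iff.2 fun i _ => ht

end Pool.Agent.SmoothDegree
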