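import Mathlib
import Pool.Agent.SmoothDegree.Primitive
import Pool.Agent.SmoothDegree.Defs

/-!
# The degree integral at a regular value is the signed number of preimages
-/

set_option autoImplicit false

namespace Pool.Agent.SmoothDegree

open MeasureTheory Metric Set Filter Topology
open scoped NNReal ContDiff

variable {E : Type*} [NormedAddCommGroup E] [NormedSpace ℝ E] [FiniteDimensional ℝ E]

theorem exists_local_homeo {F : E → E} (hF : ContDiff ℝ 1 F) {x : E}
    (hx : (fderiv ℝ F x).det ≠ 0) :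
    ∃ e : OpenPartialHomeomorph E E, x ∈ e.source ∧ ⇑e = F := by
  have hinj := inj_of_det_ne_zero _ hx
  have hker : LinearMap.ker (fderiv ℝ F x : E →ₗ[ℝ] E) = ⊥ := by
    rw [LinearMap.ker_eq_bot']
    exact hinj
  set e' : E ≃L[ℝ] E := (LinearEquiv.ofInjectiveEndo (fderiv ℝ F x : E →ₗ[ℝ] E)
    (LinearMap.ker_eq_bot.1 hker)).toContinuousLinearEquiv with he'
  have hs : HasStrictFDerivAt F (fderiv ℝ F x) x :=
    (hF.contDiffAt).hasStrictFDerivAt one_ne_zero
  have hs' : HasStrictFDerivAt F (e' : E →L[ℝ] E) x := by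
    have : (e' : E →L[ℝ] E) = fderiv ℝ F x := by
      ext v
      rfl
    rw [this]; exact hs
  exact ⟨hs'.toOpenPartialHomeomorph F, hs'.mem_toOpenPartialHomeomorph_source,
    hs'.toOpenPartialHomeomorph_coe⟩

/-- In a compact set, a regular value has finitely many preimages. -/
theorem finite_preimage {F : E → E} (hF : ContDiff ℝ 1 F) {U : Set E} (hU : IsCompact U) {y : E}
    (hreg : ∀ x ∈ U, F x = y → (fderiv ℝ F x).det ≠ 0) : (U ∩ F ⁻¹' {y}).Finite := by
  have hS : IsCompact (U ∩ F ⁻¹' {y}) :=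
    hU.inter_right (isClosed_singleton.preimage hF.continuous)
  have hloc : ∀ x ∈ U ∩ F ⁻¹' {y}, ∃ V ∈ 𝓝 x, V ∩ F ⁻¹' {y} ⊆ {x} := by
    intro x hx
    obtain ⟨e, hxe, he⟩ := exists_local_homeo hF (hreg x hx.1 hx.2)
    refine ⟨e.source, e.open_source.mem_nhds hxe, ?_⟩
    rintro z ⟨hz, hzy⟩
    apply e.injOn hz hxe
    rw [he]
    exact (show F z = y from hzy).trans (show F x = y from hx.2).symm
  choose! V hV hV' using hloc
  obtain ⟨t, ht, hcov⟩ := hS.elim_nhds_subcover V hV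
  apply t.finite_toSet.subset
  intro z hz
  obtain ⟨x, hxt, hzx⟩ := mem_iUnion₂.1 (hcov hz)
  have := hV' x (ht x hxt) ⟨hzx, hz.2⟩
  rw [mem_singleton_iff.1 this]
  exact hxt

variable [MeasurableSpace E] [BorelSpace E] (μ : Measure E) [μ.IsAddHaarMeasure]

/-- Contribution of a neighbourhood on which the rescaled map is a bijection onto a set containing
the ball of radius `r`. -/
theorem local_contribution {Φ : E → E} (hΦ : ContDiff ℝ 1 Φ) {r : ℝ}
    (hΦ0 : ∀ y, r < ‖y‖ → (fderiv ℝ Φ y).det = 0) {G : E → E} (hG : ContDiff ℝ 1 G) {N : Set E}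
    (hN : MeasurableSet N) (hinj : InjOn G N) (hball : closedBall (0:E) r ⊆ G '' N) {s : ℝ}
    (hs : ∀ z ∈ N, (fderiv ℝ G z).det = s * |(fderiv ℝ G z).det|) :
    ∫ z in N, (fderiv ℝ (Φ ∘ G) z).det ∂μ = s * ∫ y, (fderiv ℝ Φ y).det ∂μ := by
  have h1 := integral_image_eq_integral_abs_det_fderiv_smul μ hN
    (fun z _ => ((hG.differentiable one_ne_zero z).hasFDerivAt).hasFDerivWithinAt) hinj
    (fun y => (fderiv ℝ Φ y).det)
  have h2 : ∫ y in G '' N, (fderiv ℝ Φ y).det ∂μ = ∫ y, (fderiv ℝ Φ y).det ∂μ := by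
    apply setIntegral_eq_integral_of_forall_compl_eq_zero
    intro y hy
    apply hΦ0
    by_contra hle
    exact hy (hball (by simpa using not_lt.1 hle))
  rw [← h2, h1, ← integral_const_mul]
  refine setIntegral_congr_fun hN fun z hz => ?_
  rw [fderiv_comp z (hΦ.differentiable one_ne_zero _) (hG.differentiable one_ne_zero _),
    det_comp]
  conv_lhs => rw [hs z hz]
  simp only [smul_eq_mul]
  ring

theorem degree_integral_regular {Φ : E → E} (hΦ : ContDiff ℝ 1 Φ) {r : ℝ}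
    (hΦ0 : ∀ y, r < ‖y‖ → (fderiv ℝ Φ y).det = 0)
    {F : E → E} (hF : ContDiff ℝ 1 F) {U : Set E} (hU : IsCompact U) {y : E}
    (hfr : ∀ x ∈ frontier U, F x ≠ y) (hreg : ∀ x ∈ U, F x = y → (fderiv ℝ F x).det ≠ 0) :
    ∃ c₀ > (0:ℝ), ∀ c, c₀ < c →
      ∫ x in U, (fderiv ℝ (Φ ∘ fun x => c • (F x - y)) x).det ∂μ =
        ((∑ᶠ x ∈ U ∩ F ⁻¹' {y}, jacobianSign F x : ℤ) : ℝ) * ∫ y, (fderiv ℝ Φ y).det ∂μ := by
  classical
  have hSfin := finite_preimage hF hU hreg
  set S := hSfin.toFinset with hS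
  have hSmem : ∀ x, x ∈ S ↔ x ∈ U ∧ F x = y := by
    intro x; rw [hS, Set.Finite.mem_toFinset]; rfl
  have hSint : ∀ x ∈ S, x ∈ interior U := by
    intro x hx
    by_contra hni
    exact hfr x ⟨subset_closure ((hSmem x).1 hx).1, hni⟩ ((hSmem x).1 hx).2
  -- local homeomorphisms
  have hloc : ∀ x ∈ S, ∃ e : OpenPartialHomeomorph E E, x ∈ e.source ∧ ⇑e = F := fun x hx =>
    exists_local_homeo hF (hreg x ((hSmem x).1 hx).1 ((hSmem x).1 hx).2)
  have : Nonempty (OpenPartialHomeomorph E E) := ⟨OpenPartialHomeomorph.refl E⟩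
  choose! e he_mem he_coe using hloc
  obtain ⟨V, hV, hVdisj⟩ := S.finite_toSet.t2_separation
  have hdetc : Continuous fun z => (fderiv ℝ F z).det :=
    continuous_clm_det.comp (hF.continuous_fderiv one_ne_zero)
  set N : E → Set E := fun x => ((e x).source ∩ V x) ∩ (interior U ∩
    {z | 0 < (fderiv ℝ F x).det * (fderiv ℝ F z).det}) with hNdef
  have hNopen : ∀ x, IsOpen (N x) := by
    intro x
    apply IsOpen.inter ((e x).open_source.inter (hV x).2)
    apply isOpen_interior.inter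
    exact isOpen_lt continuous_const (continuous_const.mul hdetc)
  have hNmem : ∀ x ∈ S, x ∈ N x := by
    intro x hx
    refine ⟨⟨he_mem x hx, (hV x).1⟩, hSint x hx, ?_⟩
    have := hreg x ((hSmem x).1 hx).1 ((hSmem x).1 hx).2
    exact mul_self_pos.2 this
  have hNU : ∀ x, N x ⊆ U := fun x z hz => interior_subset hz.2.1
  have hNdisj : (S : Set E).PairwiseDisjoint N := by
    intro a ha b hb hab
    exact (hVdisj ha hb hab).mono (fun z hz => hz.1.2) (fun z hz => hz.1.2)
  have hinjN : ∀ x ∈ S, InjOn F (N x) := by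
    intro x hx
    have := (e x).injOn
    rw [he_coe x hx] at this
    exact this.mono fun z hz => hz.1.1
  -- the image of `N x` contains a ball around `y`
  have hballx : ∀ x ∈ S, ∃ ρ > 0, ball y ρ ⊆ F '' N x := by
    intro x hx
    have hopen : IsOpen (F '' N x) := by
      have := (e x).isOpen_image_of_subset_source (hNopen x) (fun z hz => hz.1.1)
      rwa [he_coe x hx] at this
    exact Metric.isOpen_iff.1 hopen y ⟨x, hNmem x hx, ((hSmem x).1 hx).2⟩
  choose! ρ hρpos hρ using hballx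
  obtain ⟨ρ₁, hρ₁pos, hρ₁⟩ : ∃ ρ₁ > 0, ∀ x ∈ S, ρ₁ ≤ ρ x := by
    rcases S.eq_empty_or_nonempty with h | h
    · exact ⟨1, one_pos, by simp [h]⟩
    · refine ⟨S.inf' h ρ, ?_, fun x hx => Finset.inf'_le _ hx⟩
      rw [gt_iff_lt, Finset.lt_inf'_iff]
      exact fun x hx => hρpos x hx
  -- away from the `N x`
  set K : Set E := U \ ⋃ x ∈ S, N x with hK
  have hKc : IsCompact K := hU.diff (isOpen_biUnion fun x _ => hNopen x)
  obtain ⟨ρ₂, hρ₂pos, hρ₂⟩ : ∃ ρ₂ > 0, ∀ z ∈ K, ρ₂ ≤ ‖F z - y‖ := by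
    rcases K.eq_empty_or_nonempty with h | h
    · exact ⟨1, one_pos, by simp [h]⟩
    · have hcont : ContinuousOn (fun z => ‖F z - y‖) K :=
        ((hF.continuous.sub continuous_const).norm).continuousOn
      obtain ⟨z₀, hz₀, hmin⟩ := hKc.exists_isMinOn h hcont
      refine ⟨‖F z₀ - y‖, ?_, fun z hz => hmin hz⟩
      apply norm_pos_iff.2
      intro h0
      have hmem : z₀ ∈ S := (hSmem z₀).2 ⟨hz₀.1, sub_eq_zero.1 h0⟩
      exact hz₀.2 (mem_biUnion (by exact_mod_cast hmem) (hNmem z₀ hmem))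
  set ρ₀ := min ρ₁ ρ₂ with hρ₀
  have hρ₀pos : 0 < ρ₀ := lt_min hρ₁pos hρ₂pos
  refine ⟨(|r| + 1) / ρ₀, by positivity, fun c hc => ?_⟩
  have hc0 : 0 < c := lt_trans (by positivity) hc
  have hcρ : |r| + 1 < c * ρ₀ := by
    rwa [div_lt_iff₀ hρ₀pos] at hc
  set G : E → E := fun x => c • (F x - y) with hG
  have hGc : ContDiff ℝ 1 G := (hF.sub contDiff_const).const_smul c
  have hGfd : ∀ z, fderiv ℝ G z = c • fderiv ℝ F z := by
    intro z
    have h1 : HasFDerivAt F (fderiv ℝ F z) z := (hF.differentiable one_ne_zero z).hasFDerivAt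
    exact ((h1.sub_const y).const_smul c).fderiv
  have hGdet : ∀ z, (fderiv ℝ G z).det = c ^ Module.finrank ℝ E * (fderiv ℝ F z).det := by
    intro z
    rw [hGfd]
    exact LinearMap.det_smul c (fderiv ℝ F z : E →ₗ[ℝ] E)
  have hint : IntegrableOn (fun x => (fderiv ℝ (Φ ∘ G) x).det) U μ :=
    integrableOn_det_fderiv μ (hΦ.comp hGc) hU
  have hKzero : ∀ z ∈ K, (fderiv ℝ (Φ ∘ G) z).det = 0 := by
    intro z hz
    rw [fderiv_comp z (hΦ.differentiable one_ne_zero _) (hGc.differentiable one_ne_zero _),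
      det_comp, hΦ0, zero_mul]
    have h1 : ρ₀ ≤ ‖F z - y‖ := (min_le_right _ _).trans (hρ₂ z hz)
    have h2 : ‖G z‖ = c * ‖F z - y‖ := by
      simp only [hG]; rw [norm_smul, Real.norm_eq_abs, abs_of_pos hc0]
    rw [h2]
    have : c * ρ₀ ≤ c * ‖F z - y‖ := mul_le_mul_of_nonneg_left h1 hc0.le
    linarith [le_abs_self r]
  have hUN : ∫ x in U, (fderiv ℝ (Φ ∘ G) x).det ∂μ =
      ∫ x in ⋃ x ∈ S, N x, (fderiv ℝ (Φ ∘ G) x).det ∂μ := by
    have hsub : (⋃ x ∈ S, N x) ⊆ U := iUnion₂_subset fun x _ => hNU x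
    apply setIntegral_eq_of_subset_of_forall_sdiff_eq_zero hU.measurableSet hsub
    intro z hz
    exact hKzero z hz
  rw [hUN, integral_biUnion_finset S (fun x _ => (hNopen x).measurableSet) hNdisj
    (fun x _ => hint.mono_set (hNU x))]
  have hlocal : ∀ x ∈ S, ∫ z in N x, (fderiv ℝ (Φ ∘ G) z).det ∂μ =
      (jacobianSign F x : ℝ) * ∫ y, (fderiv ℝ Φ y).det ∂μ := by
    intro x hx
    apply local_contribution μ hΦ hΦ0 hGc (hNopen x).measurableSet
    · intro a ha b hb hab
      apply hinjN x hx ha hb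
      have := smul_right_injective E hc0.ne' hab
      exact sub_left_injective this
    · intro w hw
      have hw' : ‖w‖ ≤ r := by simpa using hw
      have hmem : y + c⁻¹ • w ∈ ball y (ρ x) := by
        rw [mem_ball, dist_eq_norm, add_sub_cancel_left, norm_smul, norm_inv, Real.norm_eq_abs,
          abs_of_pos hc0, inv_mul_lt_iff₀ hc0]
        have h1 : ρ₀ ≤ ρ x := (min_le_left _ _).trans (hρ₁ x hx)
        have h2 : c * ρ₀ ≤ c * ρ x := mul_le_mul_of_nonneg_left h1 hc0.le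
        linarith [le_abs_self r]
      obtain ⟨z, hz, hFz⟩ := hρ x hx hmem
      refine ⟨z, hz, ?_⟩
      simp only [hG, hFz, add_sub_cancel_left]
      rw [smul_smul, mul_inv_cancel₀ hc0.ne', one_smul]
    · intro z hz
      have hzpos : 0 < (fderiv ℝ F x).det * (fderiv ℝ F z).det := hz.2.2
      have hx0 := hreg x ((hSmem x).1 hx).1 ((hSmem x).1 hx).2
      rw [hGdet, abs_mul, abs_of_pos (pow_pos hc0 _)]
      rcases lt_or_gt_of_ne hx0 with hneg | hpos
      · have hzneg : (fderiv ℝ F z).det < 0 := by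
          by_contra hcon
          push Not at hcon
          nlinarith
        rw [jacobianSign, sign_neg hneg, abs_of_neg hzneg]
        simp
      · have hzpos' : 0 < (fderiv ℝ F z).det := by
          by_contra hcon
          push Not at hcon
          nlinarith
        rw [jacobianSign, sign_pos hpos, abs_of_pos hzpos']
        simp
  rw [Finset.sum_congr rfl hlocal, ← Finset.sum_mul]
  congr 1
  have : ∑ᶠ x ∈ U ∩ F ⁻¹' {y}, jacobianSign F x = ∑ x ∈ S, jacobianSign F x := by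
    rw [hS, ← finsum_mem_eq_finite_toFinset_sum]
  rw [this]
  push_cast
  rfl

end Pool.Agent.SmoothDegree
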