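import Mathlib
import Pool.Agent.SmoothDegree.RegularValue

/-!
# Homotopy invariance of the signed number of zeros
-/

set_option autoImplicit false

namespace Pool.Agent.SmoothDegree

open MeasureTheory Metric Set Filter Topology
open scoped NNReal ContDiff

variable {E : Type*} [NormedAddCommGroup E] [NormedSpace ℝ E] [FiniteDimensional ℝ E]

omit [FiniteDimensional ℝ E] in
/-- A continuous function without zeros on the product of a compact set and the unit interval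
is bounded below there. -/
theorem exists_lower_bound {F₀ F₁ : E → E} (h0 : Continuous F₀) (h1 : Continuous F₁) {K : Set E}
    (hK : IsCompact K) (hne : ∀ x ∈ K, ∀ t ∈ Icc (0:ℝ) 1, F₀ x + t • (F₁ x - F₀ x) ≠ 0) :
    ∃ m > 0, ∀ x ∈ K, ∀ t ∈ Icc (0:ℝ) 1, m ≤ ‖F₀ x + t • (F₁ x - F₀ x)‖ := by
  rcases K.eq_empty_or_nonempty with h | h
  · exact ⟨1, one_pos, by simp [h]⟩
  · have hc : IsCompact (K ×ˢ Icc (0:ℝ) 1) := hK.prod isCompact_Icc
    have hcont : ContinuousOn (fun p : E × ℝ => ‖F₀ p.1 + p.2 • (F₁ p.1 - F₀ p.1)‖)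
        (K ×ˢ Icc (0:ℝ) 1) := by
      apply Continuous.continuousOn
      fun_prop
    obtain ⟨p, hp, hmin⟩ := hc.exists_isMinOn (h.prod ⟨0, by simp⟩) hcont
    refine ⟨‖F₀ p.1 + p.2 • (F₁ p.1 - F₀ p.1)‖, norm_pos_iff.2 (hne _ hp.1 _ hp.2), ?_⟩
    intro x hx t ht
    exact hmin (show (x, t) ∈ K ×ˢ Icc (0:ℝ) 1 from ⟨hx, ht⟩)

/-- **Homotopy invariance of the signed count of zeros.** -/
theorem signed_count_homotopy {F₀ F₁ : E → E} (h0 : ContDiff ℝ 1 F₀) (h1 : ContDiff ℝ 1 F₁)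
    {U : Set E} (hU : IsCompact U)
    (hfr : ∀ x ∈ frontier U, ∀ t ∈ Icc (0:ℝ) 1, F₀ x + t • (F₁ x - F₀ x) ≠ 0)
    (h0reg : ∀ x ∈ U, F₀ x = 0 → (fderiv ℝ F₀ x).det ≠ 0)
    (h1reg : ∀ x ∈ U, F₁ x = 0 → (fderiv ℝ F₁ x).det ≠ 0) [Nontrivial E] :
    ∑ᶠ x ∈ U ∩ F₀ ⁻¹' {0}, jacobianSign F₀ x = ∑ᶠ x ∈ U ∩ F₁ ⁻¹' {0}, jacobianSign F₁ x := by
  classical
  let _ : MeasurableSpace E := borel E
  have _ : BorelSpace E := ⟨rfl⟩
  set μ : Measure E := Measure.addHaar with hμ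
  obtain ⟨Φ, hΦ, ⟨r, hr⟩, hnn, ⟨y₀, hy₀⟩⟩ := exists_primitive E
  have hΦ1 : ContDiff ℝ 1 Φ := hΦ.of_le (by exact_mod_cast le_top)
  have hUfr : IsCompact (frontier U) := hU.of_isClosed_subset isClosed_frontier
    (hU.isClosed.frontier_subset)
  obtain ⟨m, hm, hmb⟩ := exists_lower_bound h0.continuous h1.continuous hUfr hfr
  have hpos : 0 < ∫ y, (fderiv ℝ Φ y).det ∂μ := by
    apply Continuous.integral_pos_of_hasCompactSupport_nonneg_nonzero (x := y₀)
    · exact continuous_clm_det.comp (hΦ1.continuous_fderiv one_ne_zero)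
    · apply HasCompactSupport.intro (isCompact_closedBall (0:E) r)
      intro y hy
      apply hr
      simpa using hy
    · exact hnn
    · exact hy₀
  have f0 : ∀ x ∈ frontier U, F₀ x ≠ 0 := by
    intro x hx
    simpa using hfr x hx 0 (by simp)
  have f1 : ∀ x ∈ frontier U, F₁ x ≠ 0 := by
    intro x hx
    simpa using hfr x hx 1 (by simp)
  obtain ⟨c₀, hc₀, hc₀'⟩ := degree_integral_regular μ hΦ1 hr h0 hU f0 h0reg
  obtain ⟨c₁, hc₁, hc₁'⟩ := degree_integral_regular μ hΦ1 hr h1 hU f1 h1reg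
  set c : ℝ := max (max c₀ c₁) (|r| / m) + 1 with hc
  have hcc0 : c₀ < c := by
    have : c₀ ≤ max (max c₀ c₁) (|r| / m) := (le_max_left _ _).trans (le_max_left _ _)
    linarith
  have hcc1 : c₁ < c := by
    have : c₁ ≤ max (max c₀ c₁) (|r| / m) := (le_max_right _ _).trans (le_max_left _ _)
    linarith
  have hcm : r < c * m := by
    have h1 : |r| / m ≤ max (max c₀ c₁) (|r| / m) := le_max_right _ _
    have h2 : |r| / m < c := by linarith
    rw [div_lt_iff₀ hm] at h2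
    linarith [le_abs_self r]
  have hcpos : 0 < c := hc₀.trans hcc0
  have e0 := hc₀' c hcc0
  have e1 := hc₁' c hcc1
  simp only [sub_zero] at e0 e1
  have hh := degree_integral_homotopy μ hΦ1 hr (F₀ := fun x => c • F₀ x) (F₁ := fun x => c • F₁ x)
    (h0.const_smul c) (h1.const_smul c) hU (by
      intro x hx t ht
      have : c • F₀ x + t • (c • F₁ x - c • F₀ x) = c • (F₀ x + t • (F₁ x - F₀ x)) := by
        rw [smul_add, ← smul_sub, smul_comm t c]
      rw [this, norm_smul, Real.norm_eq_abs, abs_of_pos hcpos]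
      exact lt_of_lt_of_le hcm (mul_le_mul_of_nonneg_left (hmb x hx t ht) hcpos.le))
  rw [e0, e1] at hh
  have := mul_right_cancel₀ hpos.ne' hh
  exact_mod_cast this.symm

end Pool.Agent.SmoothDegree
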