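import Mathlib
import Pool.Agent.SmoothDegree.SignedCount

/-!
# Existence, uniqueness and computation of the local degree
-/

set_option autoImplicit false
set_option linter.unusedSectionVars false

namespace Pool.Agent.SmoothDegree

open MeasureTheory Metric Set Filter Topology
open scoped NNReal ContDiff

variable {E : Type*} [NormedAddCommGroup E] [NormedSpace ℝ E]

theorem IsolatingNhd.mem {F : E → E} {x : E} {U : Set E} (h : IsolatingNhd F x U) : x ∈ U :=
  mem_of_mem_nhds h.mem_nhds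

theorem IsolatingNhd.ne_of_mem {F : E → E} {x : E} {U : Set E} (h : IsolatingNhd F x U) {z : E}
    (hz : z ∈ U) (hzx : z ≠ x) : F z ≠ F x := by
  intro he
  have : z ∈ U ∩ F ⁻¹' {F x} := ⟨hz, he⟩
  rw [h.inter_fibre] at this
  exact hzx this

theorem IsolatingNhd.mono {F : E → E} {x : E} {U V : Set E} (h : IsolatingNhd F x U)
    (hV : IsCompact V) (hVx : V ∈ 𝓝 x) (hVU : V ⊆ U) : IsolatingNhd F x V := by
  refine ⟨hV, hVx, ?_⟩
  apply Subset.antisymm
  · rw [← h.inter_fibre]
    exact inter_subset_inter_left _ hVU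
  · rintro _ rfl
    exact ⟨mem_of_mem_nhds hVx, rfl⟩

theorem IsolatingNhd.ne_on_frontier {F : E → E} {x : E} {U : Set E} (h : IsolatingNhd F x U)
    {z : E} (hz : z ∈ frontier U) : F z ≠ F x := by
  apply h.ne_of_mem (h.isCompact.isClosed.frontier_subset hz)
  rintro rfl
  exact hz.2 (mem_interior_iff_mem_nhds.2 h.mem_nhds)

/-- A compact set on which `F ≠ y` misses the fibres over all points near `y`. -/
theorem eventually_forall_ne {F : E → E} (hF : Continuous F) {K : Set E} (hK : IsCompact K) {y : E}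
    (hne : ∀ z ∈ K, F z ≠ y) : ∀ᶠ y' in 𝓝 y, ∀ z ∈ K, F z ≠ y' := by
  have h1 : IsClosed (F '' K) := (hK.image hF).isClosed
  have h2 : y ∉ F '' K := by
    rintro ⟨z, hz, rfl⟩
    exact hne z hz rfl
  filter_upwards [h1.isOpen_compl.mem_nhds h2] with y' hy' z hz he
  exact hy' ⟨z, hz, he⟩

theorem IsolatingNhd.eventually_inter_eq {F : E → E} (hF : Continuous F) {x : E} {U V : Set E}
    (hU : IsolatingNhd F x U) (hV : IsolatingNhd F x V) :
    ∀ᶠ y' in 𝓝 (F x), U ∩ F ⁻¹' {y'} = V ∩ F ⁻¹' {y'} := by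
  have key : ∀ {U V : Set E}, IsolatingNhd F x U → IsolatingNhd F x V →
      ∀ᶠ y' in 𝓝 (F x), U ∩ F ⁻¹' {y'} ⊆ V ∩ F ⁻¹' {y'} := by
    intro U V hU hV
    have hK : IsCompact (U \ interior V) := hU.isCompact.diff isOpen_interior
    have hne : ∀ z ∈ U \ interior V, F z ≠ F x := by
      intro z hz
      apply hU.ne_of_mem hz.1
      rintro rfl
      exact hz.2 (mem_interior_iff_mem_nhds.2 hV.mem_nhds)
    filter_upwards [eventually_forall_ne hF hK hne] with y' hy'
    rintro z ⟨hz, hzy⟩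
    refine ⟨?_, hzy⟩
    by_contra hzV
    exact hy' z ⟨hz, fun h => hzV (interior_subset h)⟩ hzy
  filter_upwards [key hU hV, key hV hU] with y' h1 h2
  exact Subset.antisymm h1 h2

variable [FiniteDimensional ℝ E]

theorem fderiv_sub_const' (F : E → E) (y : E) (x : E) :
    fderiv ℝ (fun z => F z - y) x = fderiv ℝ F x := by
  rw [fderiv_sub_const]

theorem jacobianSign_sub_const (F : E → E) (y : E) (x : E) :
    jacobianSign (fun z => F z - y) x = jacobianSign F x := by
  unfold jacobianSign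
  rw [fderiv_sub_const']

theorem preimage_sub_const (F : E → E) (y : E) : (fun z => F z - y) ⁻¹' {0} = F ⁻¹' {y} := by
  ext z
  simp [sub_eq_zero]

/-- The signed count of preimages is locally constant off the image of the frontier. -/
theorem signed_count_const [Nontrivial E] {F : E → E} (hF : ContDiff ℝ 1 F) {U : Set E}
    (hU : IsCompact U) {y : E} (hfr : ∀ x ∈ frontier U, F x ≠ y) :
    ∃ V ∈ 𝓝 y, ∀ y₁ ∈ V, ∀ y₂ ∈ V, (∀ x ∈ U, F x = y₁ → (fderiv ℝ F x).det ≠ 0) →
      (∀ x ∈ U, F x = y₂ → (fderiv ℝ F x).det ≠ 0) →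
      ∑ᶠ x ∈ U ∩ F ⁻¹' {y₁}, jacobianSign F x = ∑ᶠ x ∈ U ∩ F ⁻¹' {y₂}, jacobianSign F x := by
  have hUfr : IsCompact (frontier U) := hU.of_isClosed_subset isClosed_frontier
    (hU.isClosed.frontier_subset)
  obtain ⟨ρ, hρ, hball⟩ := Metric.mem_nhds_iff.1 (eventually_forall_ne hF.continuous hUfr hfr)
  refine ⟨ball y ρ, ball_mem_nhds y hρ, fun y₁ hy₁ y₂ hy₂ hr₁ hr₂ => ?_⟩
  have h := signed_count_homotopy (F₀ := fun x => F x - y₁) (F₁ := fun x => F x - y₂)
    (hF.sub contDiff_const) (hF.sub contDiff_const) hU ?_ ?_ ?_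
  · simpa only [preimage_sub_const, jacobianSign_sub_const] using h
  · intro x hx t ht h0
    have hmem : y₁ + t • (y₂ - y₁) ∈ ball y ρ := by
      have := (convex_ball y ρ).add_smul_sub_mem hy₁ hy₂ ht
      exact this
    apply hball hmem x hx
    have : F x - y₁ + t • (F x - y₂ - (F x - y₁)) = F x - (y₁ + t • (y₂ - y₁)) := by
      rw [show F x - y₂ - (F x - y₁) = -(y₂ - y₁) by abel, smul_neg]
      abel
    rw [this] at h0
    exact sub_eq_zero.1 h0
  · intro x hx h0
    rw [fderiv_sub_const']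
    exact hr₁ x hx (sub_eq_zero.1 h0)
  · intro x hx h0
    rw [fderiv_sub_const']
    exact hr₂ x hx (sub_eq_zero.1 h0)

/-- **Sard's lemma** in equal dimensions: regular values are dense. -/
theorem frequently_isRegularValue {F : E → E} (hF : ContDiff ℝ 1 F) (y : E) :
    ∃ᶠ y' in 𝓝 y, IsRegularValue F y' := by
  let _ : MeasurableSpace E := borel E
  have _ : BorelSpace E := ⟨rfl⟩
  set μ : Measure E := Measure.addHaar with hμ
  set s : Set E := {x | (fderiv ℝ F x).det = 0} with hs
  have h0 : μ (F '' s) = 0 := by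
    apply addHaar_image_eq_zero_of_det_fderivWithin_eq_zero μ
      (f' := fun x => fderiv ℝ F x)
    · intro x _
      exact (hF.differentiable one_ne_zero x).hasFDerivAt.hasFDerivWithinAt
    · intro x hx
      exact hx
  have hdense : Dense (F '' s)ᶜ := by
    apply Measure.dense_of_ae (μ := μ)
    exact measure_eq_zero_iff_ae_notMem.1 h0
  have h1 := mem_closure_iff_frequently.1 (hdense y)
  refine h1.mono fun y' hy' x hx hdet => hy' ⟨x, hdet, hx⟩

/-- The local degree exists (and this is vacuous at points not isolated in their fibre). -/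
theorem exists_hasLocalDegree [Nontrivial E] {F : E → E} (hF : ContDiff ℝ 1 F) (x : E) :
    ∃ k, HasLocalDegree F x k := by
  by_cases hiso : IsolatedInFibre F x
  swap
  · exact ⟨0, fun U hU => absurd ⟨U, hU⟩ hiso⟩
  obtain ⟨U₀, hU₀⟩ := hiso
  obtain ⟨V, hV, hconst⟩ := signed_count_const hF hU₀.isCompact
    (fun z hz => hU₀.ne_on_frontier hz)
  obtain ⟨y₀, hy₀, hy₀V⟩ := ((frequently_isRegularValue hF (F x)).and_eventually hV).exists
  refine ⟨∑ᶠ x' ∈ U₀ ∩ F ⁻¹' {y₀}, jacobianSign F x', fun U hU => ?_⟩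
  filter_upwards [hV, hU.eventually_inter_eq hF.continuous hU₀] with y' hy' heq hreg
  refine ⟨finite_preimage hF hU.isCompact fun x _ hx => hreg x hx, ?_⟩
  rw [heq]
  exact hconst y' hy' y₀ hy₀V (fun x _ hx => hreg x hx) (fun x _ hx => hy₀ x hx)

theorem HasLocalDegree.unique {F : E → E} (hF : ContDiff ℝ 1 F) {x : E}
    (hx : IsolatedInFibre F x) {k k' : ℤ} (h : HasLocalDegree F x k)
    (h' : HasLocalDegree F x k') : k = k' := by
  obtain ⟨U, hU⟩ := hx
  obtain ⟨y', hreg, h1, h2⟩ := ((frequently_isRegularValue hF (F x)).and_eventually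
    ((h U hU).and (h' U hU))).exists
  rw [← (h1 hreg).2, ← (h2 hreg).2]

/-- If `F - F x` is homotopic, without zeros on the frontier of an isolating neighbourhood, to a
map without zeros in it, then the local degree of `F` at `x` is `0`. -/
theorem hasLocalDegree_zero_of_homotopy [Nontrivial E] {F : E → E} (hF : ContDiff ℝ 1 F) {x : E}
    {U : Set E} (hU : IsolatingNhd F x U) {F₁ : E → E} (hF₁ : ContDiff ℝ 1 F₁)
    (hne : ∀ z ∈ U, F₁ z ≠ 0)
    (hfr : ∀ z ∈ frontier U, ∀ t ∈ Icc (0:ℝ) 1, (F z - F x) + t • (F₁ z - (F z - F x)) ≠ 0) :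
    HasLocalDegree F x 0 := by
  intro W hW
  have hUfr : IsCompact (frontier U) := hU.isCompact.of_isClosed_subset isClosed_frontier
    (hU.isCompact.isClosed.frontier_subset)
  obtain ⟨m, hm, hmb⟩ := exists_lower_bound (F₀ := fun z => F z - F x)
    (hF.continuous.sub continuous_const) hF₁.continuous hUfr hfr
  filter_upwards [hW.eventually_inter_eq hF.continuous hU, ball_mem_nhds (F x) hm]
    with y' heq hy' hreg
  refine ⟨finite_preimage hF hW.isCompact fun x _ hx => hreg x hx, ?_⟩
  rw [heq]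
  have h := signed_count_homotopy (F₀ := fun z => F z - y') (F₁ := F₁)
    (hF.sub contDiff_const) hF₁ hU.isCompact ?_ ?_ ?_
  · rw [preimage_sub_const] at h
    simp only [jacobianSign_sub_const] at h
    rw [h]
    have : U ∩ F₁ ⁻¹' {0} = ∅ := by
      ext z
      simp only [mem_inter_iff, mem_preimage, mem_singleton_iff, mem_empty_iff_false, iff_false,
        not_and]
      exact hne z
    rw [this]
    simp
  · intro z hz t ht h0
    have h1 := hmb z hz t ht
    have h2 : F z - F x + t • (F₁ z - (F z - F x)) = (1 - t) • (y' - F x) := by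
      have : F z - F x + t • (F₁ z - (F z - F x)) =
        (F z - y' + t • (F₁ z - (F z - y'))) + (1 - t) • (y' - F x) := by
        module
      rw [this, h0, zero_add]
    rw [h2, norm_smul, Real.norm_eq_abs, abs_of_nonneg (by linarith [ht.2])] at h1
    have h3 : ‖y' - F x‖ < m := by
      rw [← dist_eq_norm]; exact hy'
    have h4 : (1 - t) * ‖y' - F x‖ ≤ 1 * ‖y' - F x‖ :=
      mul_le_mul_of_nonneg_right (by linarith [ht.1]) (norm_nonneg _)
    linarith
  · intro z _ h0
    rw [fderiv_sub_const']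
    exact hreg z (sub_eq_zero.1 h0)
  · intro z hz h0
    exact absurd h0 (hne z hz)

/-- If the local degree is `0` and `F` is locally onto at `x`, then property (R) fails. -/
theorem not_propertyR_of_locally_onto {F : E → E} {x : E}
    (hiso : IsolatedInFibre F x) (hdeg : HasLocalDegree F x 0)
    (honto : ∀ U ∈ 𝓝 x, F '' U ∈ 𝓝 (F x)) : ¬ PropertyR F x := by
  rintro ⟨k, hk, hR⟩
  obtain ⟨U₀, hU₀⟩ := hiso
  obtain ⟨s, hs, hsR⟩ := Filter.eventually_smallSets.1 hR
  -- a small compact isolating neighbourhood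
  obtain ⟨U, hUc, hxU, hUs⟩ := exists_compact_subset isOpen_interior
    (show x ∈ interior (s ∩ U₀) from mem_interior_iff_mem_nhds.2 (inter_mem hs hU₀.mem_nhds))
  have hUn : U ∈ 𝓝 x := mem_interior_iff_mem_nhds.1 hxU
  have hUiso : IsolatingNhd F x U := hU₀.mono hUc hUn
    ((hUs.trans interior_subset).trans inter_subset_right)
  have hUR := hsR U ((hUs.trans interior_subset).trans inter_subset_left) hUiso
  obtain ⟨y', ⟨⟨hy1, hy2⟩, hy3⟩, hreg, hcard⟩ := hUR _
    (inter_mem (inter_mem (hk U hUiso) (hdeg U hUiso)) (honto U hUn))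
  have hk0 : k = 0 := by
    rw [← (hy1 hreg).2, (hy2 hreg).2]
  rw [hk0] at hcard
  simp only [Int.natAbs_zero, Nat.cast_zero, encard_eq_zero] at hcard
  obtain ⟨z, hz, hzy⟩ := hy3
  have : z ∈ U ∩ F ⁻¹' {y'} := ⟨hz, hzy⟩
  rw [hcard] at this
  exact this

end Pool.Agent.SmoothDegree
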