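import Mathlib
import Pool.Agent.SmoothDegree.LocalDegree

/-!
# Invariance of the local degree under affine changes of coordinates
-/

set_option autoImplicit false
set_option linter.unusedSectionVars false

namespace Pool.Agent.SmoothDegree

open Metric Set Filter Topology

variable {E : Type*} [NormedAddCommGroup E] [NormedSpace ℝ E] [FiniteDimensional ℝ E]

/-- The affine homeomorphism `z ↦ p + M z`. -/
noncomputable def affHomeo (p : E) (M : E ≃L[ℝ] E) : E ≃ₜ E :=
  M.toHomeomorph.trans (Homeomorph.addLeft p)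

theorem affHomeo_apply (p : E) (M : E ≃L[ℝ] E) (z : E) : affHomeo p M z = p + M z := rfl

theorem affHomeo_zero (p : E) (M : E ≃L[ℝ] E) : affHomeo p M 0 = p := by
  simp [affHomeo_apply]

section

variable {F : E → E} {p : E} {M L : E ≃L[ℝ] E}

theorem isolatingNhd_preimage {U : Set E} (hU : IsolatingNhd F p U) :
    IsolatingNhd (fun z => L (F (p + M z))) 0 (affHomeo p M ⁻¹' U) := by
  refine ⟨(affHomeo p M).isCompact_preimage.2 hU.isCompact, ?_, ?_⟩
  · apply (affHomeo p M).continuous.continuousAt.preimage_mem_nhds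
    rw [affHomeo_zero]
    exact hU.mem_nhds
  · ext z
    have h := hU.inter_fibre
    constructor
    · rintro ⟨hz, hzF⟩
      have h1 : F (p + M z) = F p := by
        have : L (F (p + M z)) = L (F (p + M 0)) := hzF
        have := L.injective this
        simpa using this
      have h2 : affHomeo p M z ∈ U ∩ F ⁻¹' {F p} := ⟨hz, h1⟩
      rw [h] at h2
      have h3 : affHomeo p M z = affHomeo p M 0 := by
        rw [affHomeo_zero]; exact h2
      exact (affHomeo p M).injective h3
    · rintro rfl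
      refine ⟨?_, rfl⟩
      change affHomeo p M 0 ∈ U
      rw [affHomeo_zero]
      exact mem_of_mem_nhds hU.mem_nhds

theorem isolatingNhd_image {U : Set E} (hU : IsolatingNhd (fun z => L (F (p + M z))) 0 U) :
    IsolatingNhd F p (affHomeo p M '' U) := by
  refine ⟨hU.isCompact.image (affHomeo p M).continuous, ?_, ?_⟩
  · have := (affHomeo p M).isOpenMap.image_mem_nhds hU.mem_nhds
    rwa [affHomeo_zero] at this
  · have h := hU.inter_fibre
    ext x
    constructor
    · rintro ⟨⟨z, hz, rfl⟩, hx⟩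
      have h1 : z ∈ U ∩ (fun z => L (F (p + M z))) ⁻¹' {(fun z => L (F (p + M z))) 0} := by
        refine ⟨hz, ?_⟩
        have : F (affHomeo p M z) = F p := hx
        rw [affHomeo_apply] at this
        simp [this]
      rw [h] at h1
      have : z = 0 := h1
      rw [this, affHomeo_zero]
      rfl
    · rintro rfl
      refine ⟨⟨0, mem_of_mem_nhds hU.mem_nhds, affHomeo_zero _ _⟩, rfl⟩

theorem isolatedInFibre_transfer
    (h : IsolatedInFibre (fun z => L (F (p + M z))) 0) : IsolatedInFibre F p := by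
  obtain ⟨U, hU⟩ := h
  exact ⟨_, isolatingNhd_image hU⟩

theorem fderiv_conj (hF : ContDiff ℝ 1 F) (z : E) :
    fderiv ℝ (fun z => L (F (p + M z))) z =
      (L : E →L[ℝ] E).comp ((fderiv ℝ F (p + M z)).comp (M : E →L[ℝ] E)) := by
  have h1 : HasFDerivAt (fun z => p + M z) (M : E →L[ℝ] E) z :=
    (M : E →L[ℝ] E).hasFDerivAt.const_add p
  have h2 : HasFDerivAt F (fderiv ℝ F (p + M z)) (p + M z) :=
    (hF.differentiable one_ne_zero _).hasFDerivAt
  have h3 := (L : E →L[ℝ] E).hasFDerivAt.comp z (h2.comp z h1)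
  exact h3.fderiv

theorem det_fderiv_conj (hF : ContDiff ℝ 1 F) (z : E) :
    (fderiv ℝ (fun z => L (F (p + M z))) z).det =
      ((L : E →L[ℝ] E).det * (M : E →L[ℝ] E).det) * (fderiv ℝ F (p + M z)).det := by
  rw [fderiv_conj hF, det_comp, det_comp]
  ring

theorem jacobianSign_conj (hF : ContDiff ℝ 1 F)
    (hdet : 0 < (L : E →L[ℝ] E).det * (M : E →L[ℝ] E).det) (z : E) :
    jacobianSign (fun z => L (F (p + M z))) z = jacobianSign F (p + M z) := by
  unfold jacobianSign
  rw [det_fderiv_conj hF, sign_mul, sign_pos hdet, one_mul]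

theorem hasLocalDegree_transfer (hF : ContDiff ℝ 1 F)
    (hdet : 0 < (L : E →L[ℝ] E).det * (M : E →L[ℝ] E).det) {k : ℤ}
    (h : HasLocalDegree (fun z => L (F (p + M z))) 0 k) : HasLocalDegree F p k := by
  intro U hU
  have h1 := h _ (isolatingNhd_preimage (L := L) (M := M) hU)
  have h2 : Tendsto (fun y => L y) (𝓝 (F p)) (𝓝 ((fun z => L (F (p + M z))) 0)) := by
    have : (fun z => L (F (p + M z))) 0 = L (F p) := by simp
    rw [this]
    exact L.continuous.continuousAt
  filter_upwards [h2.eventually h1] with y' hy' hreg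
  have hreg' : IsRegularValue (fun z => L (F (p + M z))) (L y') := by
    intro z hz
    rw [det_fderiv_conj hF]
    exact mul_ne_zero hdet.ne' (hreg _ (L.injective hz))
  obtain ⟨hfin, hsum⟩ := hy' hreg'
  have hset : affHomeo p M '' (affHomeo p M ⁻¹' U ∩ (fun z => L (F (p + M z))) ⁻¹' {L y'}) =
      U ∩ F ⁻¹' {y'} := by
    ext x
    constructor
    · rintro ⟨z, ⟨hz, hzF⟩, rfl⟩
      exact ⟨hz, L.injective hzF⟩
    · rintro ⟨hx, hxF⟩
      obtain ⟨z, rfl⟩ := (affHomeo p M).surjective x
      refine ⟨z, ⟨hx, ?_⟩, rfl⟩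
      have : F (p + M z) = y' := hxF
      simp [this]
  rw [← hset]
  refine ⟨hfin.image _, ?_⟩
  rw [finsum_mem_image ((affHomeo p M).injective.injOn), ← hsum]
  apply finsum_mem_congr rfl
  intro z _
  rw [jacobianSign_conj hF hdet]
  rfl

theorem locally_onto_transfer
    (h : ∀ U ∈ 𝓝 (0:E), (fun z => L (F (p + M z))) '' U ∈ 𝓝 ((fun z => L (F (p + M z))) 0)) :
    ∀ U ∈ 𝓝 p, F '' U ∈ 𝓝 (F p) := by
  intro U hU
  have h1 := h (affHomeo p M ⁻¹' U) (by
    apply (affHomeo p M).continuous.continuousAt.preimage_mem_nhds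
    rw [affHomeo_zero]
    exact hU)
  have h2 : (fun z => L (F (p + M z))) 0 = L (F p) := by simp
  rw [h2] at h1
  have h3 : (fun y => L y) ⁻¹' ((fun z => L (F (p + M z))) '' (affHomeo p M ⁻¹' U)) ∈ 𝓝 (F p) :=
    L.continuous.continuousAt.preimage_mem_nhds h1
  apply Filter.mem_of_superset h3
  rintro y ⟨z, hz, hzy⟩
  exact ⟨affHomeo p M z, hz, L.injective hzy⟩

end

end Pool.Agent.SmoothDegree
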